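import Pool.Agent.H37.DL.WDefs

/-! # The exponential walk: basic facts -/

open MeasureTheory ProbabilityTheory Filter Topology Set
open scoped ENNReal

namespace Pool.Agent.H20.DLW

open Pool.Agent.H37.DL

variable {Ω : Type*} [MeasurableSpace Ω] {Q : Measure Ω} [IsProbabilityMeasure Q]
  {z : Ω → ℤ → ℝ}

theorem exists_isWalk : ∃ (Ω : Type) (_ : MeasurableSpace Ω) (Q : Measure Ω) (z : Ω → ℤ → ℝ),
    IsProbabilityMeasure Q ∧ IsWalk Q z := by
  have : IsProbabilityMeasure (expMeasure (1 / 2)) :=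
    isProbabilityMeasure_expMeasure (by norm_num)
  refine ⟨ℤ → ℝ, inferInstance, Measure.infinitePi (fun _ : ℤ => expMeasure (1 / 2)),
    fun ω i => ω i, inferInstance, ?_, ?_, ?_⟩
  · intro i
    exact measurable_pi_apply i
  · intro i
    exact Measure.infinitePi_map_eval (fun _ : ℤ => expMeasure (1 / 2)) i
  · exact iIndepFun_infinitePi (P := fun _ : ℤ => expMeasure (1 / 2))
      (X := fun _ ω => ω) (fun _ => measurable_id)

/-- shifts of the walk -/
theorem isWalk_shift (hz : IsWalk Q z) (k : ℤ) : IsWalk Q fun ω i => z ω (i + k) := by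
  refine ⟨fun i => hz.meas (i + k), fun i => hz.law (i + k), ?_⟩
  exact hz.indep.precomp (g := fun i : ℤ => i + k) (add_left_injective k)

theorem wsum_sub (z : ℤ → ℝ) {k m : ℤ} (hkm : k ≤ m) :
    wsum z m - wsum z k = ∑ i ∈ Finset.Ioc k m, z i := by
  unfold wsum
  rcases le_total 0 k with h0 | h0
  · rw [Finset.Ioc_eq_empty_of_le (a := m) (h0.trans hkm), Finset.Ioc_eq_empty_of_le (a := k) h0]
    simp only [Finset.sum_empty, sub_zero]
    have h1 : Finset.Ioc 0 m = Finset.Ioc 0 k ∪ Finset.Ioc k m :=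
      (Finset.Ioc_union_Ioc_eq_Ioc h0 hkm).symm
    have h2 : Disjoint (Finset.Ioc 0 k) (Finset.Ioc k m) := by
      rw [Finset.disjoint_left]
      intro x hx hy
      rw [Finset.mem_Ioc] at hx hy
      omega
    rw [h1, Finset.sum_union h2]
    ring
  · rcases le_total 0 m with h3 | h3
    · rw [Finset.Ioc_eq_empty_of_le (a := m) h3, Finset.Ioc_eq_empty_of_le (b := k) h0]
      simp only [Finset.sum_empty, sub_zero, zero_sub, sub_neg_eq_add]
      have h1 : Finset.Ioc k m = Finset.Ioc k 0 ∪ Finset.Ioc 0 m :=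
        (Finset.Ioc_union_Ioc_eq_Ioc h0 h3).symm
      have h2 : Disjoint (Finset.Ioc k 0) (Finset.Ioc 0 m) := by
        rw [Finset.disjoint_left]
        intro x hx hy
        rw [Finset.mem_Ioc] at hx hy
        omega
      rw [h1, Finset.sum_union h2]
      ring
    · rw [Finset.Ioc_eq_empty_of_le (b := m) h3, Finset.Ioc_eq_empty_of_le (b := k) h0]
      simp only [Finset.sum_empty, zero_sub]
      have h1 : Finset.Ioc k 0 = Finset.Ioc k m ∪ Finset.Ioc m 0 :=
        (Finset.Ioc_union_Ioc_eq_Ioc hkm h3).symm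
      have h2 : Disjoint (Finset.Ioc k m) (Finset.Ioc m 0) := by
        rw [Finset.disjoint_left]
        intro x hx hy
        rw [Finset.mem_Ioc] at hx hy
        omega
      rw [h1, Finset.sum_union h2]
      ring

theorem wsum_zero (z : ℤ → ℝ) : wsum z 0 = 0 := by
  unfold wsum; simp

/-- a block sum as a sum over `Fin` -/
theorem sum_Ioc_eq (z : ℤ → ℝ) (a : ℤ) (m : ℕ) :
    ∑ i ∈ Finset.Ioc a (a + m), z i = ∑ i : Fin m, z (a + 1 + (i : ℕ)) := by
  rw [Fin.sum_univ_eq_sum_range (fun i : ℕ => z (a + 1 + i)) m]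
  refine (Finset.sum_bij (fun (i : ℕ) _ => a + 1 + (i : ℤ)) ?_ ?_ ?_ ?_).symm
  · intro i hi
    rw [Finset.mem_range] at hi
    rw [Finset.mem_Ioc]
    omega
  · intro i _ j _ h
    omega
  · intro b hb
    rw [Finset.mem_Ioc] at hb
    refine ⟨(b - a - 1).toNat, ?_, ?_⟩
    · rw [Finset.mem_range]; omega
    · omega
  · intro i _
    rfl

/-- the law of a block of consecutive variables -/
theorem law_block (hz : IsWalk Q z) (a : ℤ) (m : ℕ) :
    Q.map (fun ω (i : Fin m) => z ω (a + (i : ℕ))) =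
      Measure.pi fun _ : Fin m => expMeasure (1 / 2) := by
  have hi : Function.Injective (fun i : Fin m => a + ((i : ℕ) : ℤ)) := by
    intro i j h
    have h' : a + ((i : ℕ) : ℤ) = a + ((j : ℕ) : ℤ) := h
    exact Fin.ext (by omega)
  have h := (hz.indep.precomp hi).map_fun_eq_pi_map (fun i => (hz.meas _).aemeasurable)
  refine h.trans ?_
  congr 1
  funext i
  exact hz.law _

end Pool.Agent.H20.DLW
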