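import Pool.Agent.H20.DLW.Osc

/-! # Central limit theorem for the increments of the rescaled walk -/

open MeasureTheory ProbabilityTheory Filter Topology Set
open scoped ENNReal

namespace Pool.Agent.H20.DLW

open Pool.Agent.H37.DL

/-- blocks of an independent family are independent -/
theorem iIndepFun_curry {Ω ι : Type*} [MeasurableSpace Ω] {P : Measure Ω} {κ : ι → Type*}
    {𝓧 : (i : ι) → κ i → Type*} [∀ i j, MeasurableSpace (𝓧 i j)]
    {X : (i : ι) → (j : κ i) → Ω → 𝓧 i j} (mX : ∀ i j, Measurable (X i j))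
    (h : iIndepFun (fun (p : (i : ι) × (κ i)) ω => X p.1 p.2 ω) P) :
    iIndepFun (fun i ω => (X i · ω)) P := by
  have := h.isProbabilityMeasure
  have : ∀ i j, IsProbabilityMeasure (P.map (X i j)) :=
    fun i j => Measure.isProbabilityMeasure_map (mX i j).aemeasurable
  rw [iIndepFun_iff_map_fun_eq_infinitePi_map (by fun_prop)]
  have h1 := (iIndepFun_iff_map_fun_eq_infinitePi_map
    (X := fun (p : (i : ι) × (κ i)) ω => X p.1 p.2 ω) (fun p => mX p.1 p.2)).1 h
  have h2 : (MeasurableEquiv.piCurry 𝓧) ∘ (fun ω (p : (i : ι) × κ i) => X p.1 p.2 ω) =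
      fun ω i j => X i j ω := by
    ext; simp [Sigma.curry]
  rw [← h2, ← Measure.map_map (by fun_prop) (by fun_prop), h1,
    Measure.infinitePi_map_piCurry (fun i j => P.map (X i j))]
  congr 1
  funext i
  symm
  have h3 : iIndepFun (X i) P := by
    have h4 : Function.Injective (fun j : κ i => (⟨i, j⟩ : (i : ι) × κ i)) := by
      intro j j' hj
      simpa using hj
    exact h.precomp (g := fun j : κ i => (⟨i, j⟩ : (i : ι) × κ i)) h4
  exact (iIndepFun_iff_map_fun_eq_infinitePi_map (mX i)).1 h3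

variable {Ω : Type*} [MeasurableSpace Ω] {Q : Measure Ω} [IsProbabilityMeasure Q]
  {z : Ω → ℤ → ℝ}

/-- integrals against the law of one variable -/
theorem integral_z (hz : IsWalk Q z) (i : ℤ) {f : ℝ → ℝ} (hf : Measurable f) :
    ∫ ω, f (z ω i) ∂Q = ∫ x, f x ∂(expMeasure (1 / 2)) := by
  rw [← hz.law i, integral_map (hz.meas i).aemeasurable hf.aestronglyMeasurable]

theorem clt_gen (X : ℕ → Ω → ℝ) (hm : Measurable (X 0)) (hind : iIndepFun X Q)
    (hident : ∀ k, IdentDistrib (X k) (X 0) Q Q) (hmean : Q[X 0] = 0) (hsq : Q[X 0 ^ 2] = 4) :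
    TendstoInDistribution (fun (n : ℕ) ω => (√n)⁻¹ * ∑ k ∈ Finset.range n, X k ω) atTop
      (id : ℝ → ℝ) (fun _ => Q) (gaussianReal 0 4) := by
  have hL2 : MemLp (X 0) 2 Q := by
    rw [memLp_two_iff_integrable_sq hm.aestronglyMeasurable]
    by_contra hn
    have h1 : ∫ ω, (X 0 ω) ^ 2 ∂Q = 0 := integral_undef hn
    have h2 : ∫ ω, (X 0 ω) ^ 2 ∂Q = 4 := hsq
    rw [h1] at h2
    norm_num at h2
  have hvar : Var[X 0; Q] = 4 := by
    rw [variance_eq_sub hL2, hmean, hsq]
    norm_num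
  have hY : HasLaw (id : ℝ → ℝ) (gaussianReal 0 Var[X 0; Q].toNNReal) (gaussianReal 0 4) := by
    refine ⟨aemeasurable_id, ?_⟩
    rw [Measure.map_id, hvar]
    norm_num
  have h := tendstoInDistribution_inv_sqrt_mul_sum_sub hY hL2 hind hident
  simp only [hmean, mul_zero, sub_zero] at h
  exact h

theorem clt_seq (hz : IsWalk Q z) :
    TendstoInDistribution (fun (n : ℕ) ω => (√n)⁻¹ *
      ∑ k ∈ Finset.range n, (z ω (1 + (k : ℕ)) - 2)) atTop (id : ℝ → ℝ) (fun _ => Q)
      (gaussianReal 0 4) := by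
  have hinj : Function.Injective (fun k : ℕ => (1 : ℤ) + (k : ℤ)) := by
    intro k k' h
    have h' : (1 : ℤ) + (k : ℤ) = 1 + (k' : ℤ) := h
    omega
  obtain ⟨i1, m1, i2, m2⟩ := centred
  refine clt_gen (fun (k : ℕ) ω => z ω (1 + (k : ℕ)) - 2) ((hz.meas _).sub_const 2)
    ((hz.indep.precomp hinj).comp (fun _ x => x - 2) (fun _ => by fun_prop)) ?_ ?_ ?_
  · intro k
    have h1 : IdentDistrib (fun ω => z ω (1 + (k : ℕ))) (fun ω => z ω (1 + ((0 : ℕ) : ℤ))) Q Q :=
      ⟨(hz.meas _).aemeasurable, (hz.meas _).aemeasurable, by rw [hz.law, hz.law]⟩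
    exact h1.comp (u := fun x => x - 2) (by fun_prop)
  · exact (integral_z hz _ (f := fun x => x - 2) (by fun_prop)).trans m1
  · exact (integral_z hz _ (f := fun x => (x - 2) ^ 2) (by fun_prop)).trans m2

end Pool.Agent.H20.DLW
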