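import Pool.Agent.H20.DLW.Mom

/-! # Maximal inequalities by one step induction -/

open MeasureTheory ProbabilityTheory Filter Topology Set
open scoped ENNReal

namespace Pool.Agent.H20.DLW

open Pool.Agent.H37.DL

/-- some partial sum, started at `s`, is in `A` -/
def Hits (A : Set ℝ) : (m : ℕ) → ℝ → (Fin m → ℝ) → Prop
  | 0, s, _ => s ∈ A
  | m + 1, s, v => s ∈ A ∨ Hits A m (s + v 0) (fun i => v i.succ)

theorem hits_iff (A : Set ℝ) : ∀ (m : ℕ) (s : ℝ) (v : Fin m → ℝ), Hits A m s v ↔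
    ∃ j : ℕ, j ≤ m ∧ s + ∑ i : Fin m, (if (i : ℕ) < j then v i else 0) ∈ A := by
  intro m
  induction m with
  | zero =>
    intro s v
    simp [Hits]
  | succ m ih =>
    intro s v
    unfold Hits
    rw [ih]
    constructor
    · rintro (h | ⟨j, hj, h⟩)
      · exact ⟨0, Nat.zero_le _, by simpa using h⟩
      · refine ⟨j + 1, by omega, ?_⟩
        rw [Fin.sum_univ_succ]
        simpa [add_assoc] using h
    · rintro ⟨j, hj, h⟩
      rcases Nat.eq_zero_or_pos j with h0 | h0
      · left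
        subst h0
        simpa using h
      · right
        refine ⟨j - 1, by omega, ?_⟩
        rw [Fin.sum_univ_succ] at h
        have e : ∀ i : Fin m, (((i.succ : Fin (m + 1)) : ℕ) < j) ↔ ((i : ℕ) < j - 1) := by
          intro i
          rw [Fin.val_succ]
          omega
        simp only [Fin.val_zero, h0, if_true, e] at h
        rwa [← add_assoc] at h

theorem measurableSet_hits {A : Set ℝ} (hA : MeasurableSet A) : ∀ m : ℕ,
    MeasurableSet {p : ℝ × (Fin m → ℝ) | Hits A m p.1 p.2} := by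
  intro m
  induction m with
  | zero => exact measurable_fst hA
  | succ m ih =>
    have h1 : Measurable (fun p : ℝ × (Fin (m + 1) → ℝ) =>
        (p.1 + p.2 0, fun i : Fin m => p.2 i.succ)) := by fun_prop
    exact (measurable_fst hA).union (h1 ih)

theorem hits_le (ν : Measure ℝ) [IsProbabilityMeasure ν] {A : Set ℝ} (hA : MeasurableSet A)
    (Φ : ℕ → ℝ → ℝ≥0∞) (h1 : ∀ m s, s ∈ A → 1 ≤ Φ m s)
    (h2 : ∀ m s, ∫⁻ x, Φ m (s + x) ∂ν ≤ Φ (m + 1) s) : ∀ (m : ℕ) (s : ℝ),
    Measure.pi (fun _ : Fin m => ν) {v | Hits A m s v} ≤ Φ m s := by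
  intro m
  induction m with
  | zero =>
    intro s
    by_cases hs : s ∈ A
    · exact prob_le_one.trans (h1 0 s hs)
    · have : {v : Fin 0 → ℝ | Hits A 0 s v} = ∅ := by
        ext v; simp [Hits, hs]
      rw [this]; simp
  | succ m ih =>
    intro s
    by_cases hs : s ∈ A
    · exact prob_le_one.trans (h1 (m + 1) s hs)
    · refine le_trans ?_ (h2 m s)
      have hmp := measurePreserving_piFinSuccAbove (fun _ : Fin (m + 1) => ν) 0
      have e : {v : Fin (m + 1) → ℝ | Hits A (m + 1) s v} =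
          (MeasurableEquiv.piFinSuccAbove (fun _ : Fin (m + 1) => ℝ) 0) ⁻¹'
            {p : ℝ × (Fin m → ℝ) | Hits A m (s + p.1) p.2} := by
        ext v
        simp only [Hits, hs, false_or, Set.mem_ofPred_eq, Set.mem_preimage]
        rfl
      have hmeas : MeasurableSet {p : ℝ × (Fin m → ℝ) | Hits A m (s + p.1) p.2} := by
        have h3 : Measurable (fun p : ℝ × (Fin m → ℝ) => (s + p.1, p.2)) := by fun_prop
        exact h3 (measurableSet_hits hA m)
      rw [e, hmp.measure_preimage hmeas.nullMeasurableSet, Measure.prod_apply hmeas]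
      exact lintegral_mono fun x => ih (s + x)

/-- the law of the centred variable -/
noncomputable def nu : Measure ℝ := (expMeasure (1 / 2)).map (fun x => x - 2)

instance : IsProbabilityMeasure nu :=
  Measure.isProbabilityMeasure_map (by fun_prop)

theorem lintegral_nu {f : ℝ → ℝ} (hf : Measurable f) (hf0 : ∀ x, 0 ≤ f x)
    (hi : Integrable (fun x => f (x - 2)) (expMeasure (1 / 2))) :
    ∫⁻ x, ENNReal.ofReal (f x) ∂nu =
      ENNReal.ofReal (∫ x, f (x - 2) ∂(expMeasure (1 / 2))) := by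
  unfold nu
  rw [lintegral_map hf.ennreal_ofReal (by fun_prop),
    ofReal_integral_eq_lintegral_ofReal hi (Eventually.of_forall fun x => hf0 _)]

variable {Ω : Type*} [MeasurableSpace Ω] {Q : Measure Ω} [IsProbabilityMeasure Q]
  {z : Ω → ℤ → ℝ}

theorem law_block' (hz : IsWalk Q z) (a : ℤ) (m : ℕ) :
    Q.map (fun ω (i : Fin m) => z ω (a + (i : ℕ)) - 2) = Measure.pi fun _ : Fin m => nu := by
  have h1 : (fun ω (i : Fin m) => z ω (a + (i : ℕ)) - 2) =
      (fun (v : Fin m → ℝ) i => v i - 2) ∘ (fun ω (i : Fin m) => z ω (a + (i : ℕ))) := rfl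
  rw [h1, ← Measure.map_map (by fun_prop) (measurable_pi_lambda _ fun i => hz.meas _),
    law_block hz]
  exact Measure.pi_map_pi (f := fun _ : Fin m => fun x : ℝ => x - 2)
    (fun i => by fun_prop)

theorem sum_Ioc_eq' (z : ℤ → ℝ) (a : ℤ) (m j : ℕ) (hj : j ≤ m) :
    ∑ i ∈ Finset.Ioc a (a + j), z i =
      ∑ i : Fin m, (if (i : ℕ) < j then z (a + 1 + (i : ℕ)) else 0) := by
  rw [sum_Ioc_eq, Fin.sum_univ_eq_sum_range (fun i : ℕ => z (a + 1 + i)) j,
    Fin.sum_univ_eq_sum_range (fun i : ℕ => if i < j then z (a + 1 + i) else 0) m]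
  rw [← Finset.sum_filter]
  apply Finset.sum_congr _ (fun _ _ => rfl)
  ext i
  rw [Finset.mem_filter, Finset.mem_range, Finset.mem_range]
  omega

/-- maximal inequality for a block of the walk -/
theorem block_le (hz : IsWalk Q z) {A : Set ℝ} (hA : MeasurableSet A)
    (Φ : ℕ → ℝ → ℝ≥0∞) (h1 : ∀ m s, s ∈ A → 1 ≤ Φ m s)
    (h2 : ∀ m s, ∫⁻ x, Φ m (s + x) ∂nu ≤ Φ (m + 1) s) (a : ℤ) (m : ℕ) :
    Q {ω | ∃ j : ℕ, j ≤ m ∧ ∑ i ∈ Finset.Ioc a (a + j), (z ω i - 2) ∈ A} ≤ Φ m 0 := by
  have hb := hits_le nu hA Φ h1 h2 m 0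
  rw [← law_block' hz (a + 1) m, Measure.map_apply] at hb
  · refine le_trans (le_of_eq ?_) hb
    congr 1
    ext ω
    rw [Set.mem_ofPred_eq, Set.mem_preimage, Set.mem_ofPred_eq, hits_iff]
    constructor
    · rintro ⟨j, hj, h⟩
      refine ⟨j, hj, ?_⟩
      rw [sum_Ioc_eq' (fun i => z ω i - 2) a m j hj] at h
      rwa [zero_add]
    · rintro ⟨j, hj, h⟩
      refine ⟨j, hj, ?_⟩
      rw [sum_Ioc_eq' (fun i => z ω i - 2) a m j hj]
      rwa [zero_add] at h
  · exact measurable_pi_lambda _ fun i => (hz.meas _).sub_const 2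
  · have h3 : Measurable (fun v : Fin m → ℝ => ((0 : ℝ), v)) := by fun_prop
    exact h3 (measurableSet_hits hA m)

/-- Kolmogorov's maximal inequality -/
theorem wsum_maximal (hz : IsWalk Q z) (m : ℕ) {l : ℝ} (hl : 0 < l) :
    Q {ω | ∃ j : ℤ, 0 ≤ j ∧ j ≤ m ∧ l ≤ |wsum (fun i => z ω i - 2) j|} ≤
      ENNReal.ofReal (4 * m / l ^ 2) := by
  have hA : MeasurableSet {x : ℝ | l ≤ |x|} := measurableSet_le measurable_const (by fun_prop)
  have hb := block_le hz hA (fun m s => ENNReal.ofReal ((s ^ 2 + 4 * m) / l ^ 2)) ?_ ?_ 0 m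
  · refine le_trans (measure_mono ?_) (hb.trans (le_of_eq ?_))
    · rintro ω ⟨j, hj0, hjm, hj⟩
      refine ⟨j.toNat, by omega, ?_⟩
      have e : wsum (fun i => z ω i - 2) j =
          ∑ i ∈ Finset.Ioc 0 (0 + (j.toNat : ℤ)), (z ω i - 2) := by
        have h := wsum_sub (fun i => z ω i - 2) hj0
        rw [wsum_zero, sub_zero] at h
        rw [h, zero_add, Int.toNat_of_nonneg hj0]
      rw [← e]
      exact hj
    · simp
  · intro m s hs
    have hs' : l ≤ |s| := hs
    rw [ENNReal.one_le_ofReal, le_div_iff₀ (by positivity), one_mul]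
    have h1 : l ^ 2 ≤ s ^ 2 := by
      rw [← sq_abs s]
      exact pow_le_pow_left₀ hl.le hs' 2
    have h2 : (0 : ℝ) ≤ 4 * m := by positivity
    linarith
  · intro m s
    obtain ⟨i1, m1, i2, m2⟩ := centred
    have hint : Integrable (fun x : ℝ => ((s + (x - 2)) ^ 2 + 4 * m) / l ^ 2)
        (expMeasure (1 / 2)) := by
      have e : ∀ x : ℝ, ((s + (x - 2)) ^ 2 + 4 * m) / l ^ 2 =
          ((x - 2) ^ 2 + 2 * s * (x - 2) + (s ^ 2 + 4 * m)) / l ^ 2 := fun x => by ring
      simp_rw [e]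
      exact ((i2.add (i1.const_mul (2 * s))).add (integrable_const _)).div_const _
    rw [lintegral_nu (f := fun x => ((s + x) ^ 2 + 4 * m) / l ^ 2) (by fun_prop)
      (fun x => by positivity) hint]
    apply ENNReal.ofReal_le_ofReal
    have e : ∀ x : ℝ, ((s + (x - 2)) ^ 2 + 4 * m) / l ^ 2 =
        (1 / l ^ 2) * ((x - 2) ^ 2 + (2 * s * (x - 2) + (s ^ 2 + 4 * m))) := fun x => by ring
    simp_rw [e]
    have i3 : Integrable (fun x : ℝ => 2 * s * (x - 2)) (expMeasure (1 / 2)) :=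
      i1.const_mul (2 * s)
    have i4 : Integrable (fun x : ℝ => 2 * s * (x - 2) + (s ^ 2 + 4 * m))
        (expMeasure (1 / 2)) := i3.add (integrable_const _)
    rw [integral_const_mul, integral_add i2 i4, integral_add i3 (integrable_const _),
      integral_const_mul, m1, m2, int_const]
    push_cast
    apply le_of_eq
    ring

end Pool.Agent.H20.DLW
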