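import Pool.Agent.H20.DLW.Clt
import Pool.Agent.H20.DLW.Max

/-! # Increments of the rescaled walk: joint law and limit -/

open MeasureTheory ProbabilityTheory Filter Topology Set
open scoped ENNReal

namespace Pool.Agent.H20.DLW

open Pool.Agent.H37.DL

variable {Ω : Type*} [MeasurableSpace Ω] {Q : Measure Ω} [IsProbabilityMeasure Q]
  {z : Ω → ℤ → ℝ}

theorem clt_scaled (hz : IsWalk Q z) {m : ℕ → ℕ} {r : ℕ → ℝ} {τ : ℝ}
    (hm : Tendsto m atTop atTop) (hr : ∀ n, 0 ≤ r n)
    (hτ : Tendsto (fun n => (m n : ℝ) / r n ^ 2) atTop (𝓝 τ)) :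
    TendstoInDistribution (fun (n : ℕ) ω => (∑ k ∈ Finset.range (m n),
      (z ω (1 + (k : ℕ)) - 2)) / r n) atTop (fun x : ℝ => x * √τ) (fun _ => Q)
      (gaussianReal 0 4) := by
  have h := clt_seq hz
  have h1 : TendstoInDistribution (fun (n : ℕ) ω => (√(m n))⁻¹ *
      ∑ k ∈ Finset.range (m n), (z ω (1 + (k : ℕ)) - 2)) atTop (id : ℝ → ℝ) (fun _ => Q)
      (gaussianReal 0 4) :=
    ⟨fun n => h.forall_aemeasurable (m n), h.aemeasurable_limit, h.tendsto.comp hm⟩
  have hc : Tendsto (fun n => √(m n) / r n) atTop (𝓝 (√τ)) := by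
    have h2 : (fun n => √(m n) / r n) = fun n => √((m n : ℝ) / r n ^ 2) := by
      funext n
      rw [Real.sqrt_div (by positivity), Real.sqrt_sq (hr n)]
    rw [h2]
    exact (Real.continuous_sqrt.tendsto τ).comp hτ
  have h3 : TendstoInMeasure Q (fun (n : ℕ) (_ : Ω) => √(m n) / r n) atTop
      (fun _ => √τ) :=
    tendstoInMeasure_of_tendsto_ae (fun n => aestronglyMeasurable_const)
      (Eventually.of_forall fun _ => hc)
  have h4 := TendstoInDistribution.continuous_comp_prodMk_of_tendstoInMeasure_const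
    (g := fun p : ℝ × ℝ => p.1 * p.2) (by fun_prop) h1 h3 (fun n => aemeasurable_const)
  refine h4.congr (fun n => Eventually.of_forall fun ω => ?_) (Eventually.of_forall fun _ => rfl)
  show ((√(m n))⁻¹ * ∑ k ∈ Finset.range (m n), (z ω (1 + (k : ℕ)) - 2)) * (√(m n) / r n) =
    (∑ k ∈ Finset.range (m n), (z ω (1 + (k : ℕ)) - 2)) / r n
  rcases Nat.eq_zero_or_pos (m n) with h5 | h5
  · rw [h5]; simp
  · have h6 : √(m n : ℝ) ≠ 0 := by
      rw [Real.sqrt_ne_zero']
      exact_mod_cast h5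
    field_simp

/-- the law of a block sum -/
theorem law_sum (hz : IsWalk Q z) (a : ℤ) (m : ℕ) (r : ℝ) :
    Q.map (fun ω => (∑ i ∈ Finset.Ioc a (a + m), (z ω i - 2)) / r) =
      (Measure.pi (fun _ : Fin m => nu)).map (fun v => (∑ i, v i) / r) := by
  rw [← law_block' hz (a + 1) m, Measure.map_map (by fun_prop)
    (measurable_pi_lambda _ fun i => (hz.meas _).sub_const 2)]
  congr 1
  funext ω
  show (∑ i ∈ Finset.Ioc a (a + m), (z ω i - 2)) / r =
    (∑ i : Fin m, (z ω (a + 1 + (i : ℕ)) - 2)) / r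
  rw [sum_Ioc_eq (fun i => z ω i - 2) a m]

theorem law_sum_range (hz : IsWalk Q z) (m : ℕ) (r : ℝ) :
    Q.map (fun ω => (∑ k ∈ Finset.range m, (z ω (1 + (k : ℕ)) - 2)) / r) =
      (Measure.pi (fun _ : Fin m => nu)).map (fun v => (∑ i, v i) / r) := by
  rw [← law_sum hz 0 m r]
  congr 1
  funext ω
  rw [sum_Ioc_eq (fun i => z ω i - 2) 0 m,
    ← Fin.sum_univ_eq_sum_range (fun k : ℕ => z ω (1 + k) - 2) m]
  simp only [zero_add]

/-- increments of the rescaled walk -/
theorem bn_sub (w : ℤ → ℝ) (n : ℕ) {s t : ℝ} (hst : s ≤ t) :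
    bn w n t - bn w n s = (∑ i ∈ Finset.Ioc ⌊sc n * s⌋ (⌊sc n * s⌋ +
      ((⌊sc n * t⌋ - ⌊sc n * s⌋).toNat : ℕ)), (w i - 2)) / rt n := by
  have h : ⌊sc n * s⌋ ≤ ⌊sc n * t⌋ :=
    Int.floor_mono (mul_le_mul_of_nonneg_left hst (sc_nonneg n))
  unfold bn
  rw [← sub_div, wsum_sub _ h, Int.toNat_of_nonneg (by omega), add_sub_cancel]

theorem count_tendsto {s t : ℝ} (hst : s < t) :
    Tendsto (fun n : ℕ => (⌊sc n * t⌋ - ⌊sc n * s⌋).toNat) atTop atTop ∧
    Tendsto (fun n : ℕ => (((⌊sc n * t⌋ - ⌊sc n * s⌋).toNat : ℕ) : ℝ) / rt n ^ 2) atTop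
      (𝓝 ((t - s) / 2)) := by
  have hlow : ∀ n : ℕ, sc n * (t - s) - 1 ≤ (((⌊sc n * t⌋ - ⌊sc n * s⌋).toNat : ℕ) : ℝ) := by
    intro n
    have h1 : ((⌊sc n * t⌋ - ⌊sc n * s⌋ : ℤ) : ℝ) ≤
        (((⌊sc n * t⌋ - ⌊sc n * s⌋).toNat : ℕ) : ℝ) := by
      exact_mod_cast Int.self_le_toNat _
    push_cast at h1
    have a2 := Int.lt_floor_add_one (sc n * t)
    have a3 := Int.floor_le (sc n * s)
    linarith
  have hup : ∀ n : ℕ, (((⌊sc n * t⌋ - ⌊sc n * s⌋).toNat : ℕ) : ℝ) ≤ sc n * (t - s) + 1 := by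
    intro n
    have h : ⌊sc n * s⌋ ≤ ⌊sc n * t⌋ :=
      Int.floor_mono (mul_le_mul_of_nonneg_left hst.le (sc_nonneg n))
    have h1 : (((⌊sc n * t⌋ - ⌊sc n * s⌋).toNat : ℕ) : ℝ) =
        ((⌊sc n * t⌋ - ⌊sc n * s⌋ : ℤ) : ℝ) := by
      exact_mod_cast Int.toNat_of_nonneg (by omega)
    rw [h1]
    push_cast
    have a1 := Int.floor_le (sc n * t)
    have a4 := Int.lt_floor_add_one (sc n * s)
    linarith
  have hts : 0 < t - s := by linarith
  constructor
  · have h1 : Tendsto (fun n : ℕ => sc n * (t - s) - 1) atTop atTop :=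
      tendsto_atTop_add_const_right _ _ (sc_tendsto.atTop_mul_const hts)
    have h2 : Tendsto (fun n : ℕ => (((⌊sc n * t⌋ - ⌊sc n * s⌋).toNat : ℕ) : ℝ)) atTop atTop :=
      tendsto_atTop_mono hlow h1
    exact tendsto_natCast_atTop_iff.1 h2
  · have h0 : Tendsto (fun n : ℕ => 1 / (2 * sc n)) atTop (𝓝 0) := by
      have := (sc_tendsto.const_mul_atTop (show (0 : ℝ) < 2 by norm_num))
      simp_rw [one_div]
      exact tendsto_inv_atTop_zero.comp this
    have hl : Tendsto (fun n : ℕ => (t - s) / 2 - 1 / (2 * sc n)) atTop (𝓝 ((t - s) / 2)) := by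
      simpa using tendsto_const_nhds.sub h0
    have hu : Tendsto (fun n : ℕ => (t - s) / 2 + 1 / (2 * sc n)) atTop (𝓝 ((t - s) / 2)) := by
      simpa using tendsto_const_nhds.add h0
    refine tendsto_of_tendsto_of_tendsto_of_le_of_le' hl hu ?_ ?_
    · filter_upwards [sc_tendsto.eventually_gt_atTop 0] with n hn
      rw [rt_sq, le_div_iff₀ (by positivity)]
      have e : ((t - s) / 2 - 1 / (2 * sc n)) * (2 * sc n) = sc n * (t - s) - 1 := by
        field_simp
      rw [e]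
      exact hlow n
    · filter_upwards [sc_tendsto.eventually_gt_atTop 0] with n hn
      rw [rt_sq, div_le_iff₀ (by positivity)]
      have e : ((t - s) / 2 + 1 / (2 * sc n)) * (2 * sc n) = sc n * (t - s) + 1 := by
        field_simp
      rw [e]
      exact hup n

theorem measurable_bn (hz : IsWalk Q z) (n : ℕ) (x : ℝ) : Measurable fun ω => bn (z ω) n x := by
  unfold bn wsum
  apply Measurable.div_const
  apply Measurable.sub
  · exact Finset.measurable_sum _ fun i _ => (hz.meas i).sub_const 2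
  · exact Finset.measurable_sum _ fun i _ => (hz.meas i).sub_const 2

/-- the law of an increment -/
noncomputable def incrLaw (hz : IsWalk Q z) (n : ℕ) (s t : ℝ) : ProbabilityMeasure ℝ :=
  ⟨Q.map (fun ω => bn (z ω) n t - bn (z ω) n s), Measure.isProbabilityMeasure_map
    ((measurable_bn hz n t).sub (measurable_bn hz n s)).aemeasurable⟩

/-- the limit law of an increment -/
noncomputable def gaussLaw (s t : ℝ) : ProbabilityMeasure ℝ :=
  ⟨gaussianReal 0 (2 * (t - s)).toNNReal, inferInstance⟩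

/-- one increment converges in law -/
theorem incr_tendsto (hz : IsWalk Q z) {s t : ℝ} (hst : s < t) :
    Tendsto (fun n : ℕ => incrLaw hz n s t) atTop (𝓝 (gaussLaw s t)) := by
  obtain ⟨h1, h2⟩ := count_tendsto hst
  have h3 := (clt_scaled hz h1 rt_nonneg h2).tendsto
  have hts : 0 < t - s := by linarith
  have elim : (gaussianReal 0 4).map (fun x : ℝ => x * √((t - s) / 2)) =
      gaussianReal 0 (2 * (t - s)).toNNReal := by
    rw [gaussianReal_map_mul_const]
    congr 1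
    · ring
    · apply NNReal.eq
      push_cast
      rw [Real.sq_sqrt (by positivity), Real.coe_toNNReal _ (by positivity)]
      ring
  have e1 : (fun n : ℕ => incrLaw hz n s t) =
      fun n : ℕ => ⟨Q.map (fun ω => (∑ k ∈ Finset.range ((⌊sc n * t⌋ - ⌊sc n * s⌋).toNat),
        (z ω (1 + (k : ℕ)) - 2)) / rt n), Measure.isProbabilityMeasure_map
        ((clt_scaled hz h1 rt_nonneg h2).forall_aemeasurable n)⟩ := by
    funext n
    apply Subtype.ext
    show Q.map (fun ω => bn (z ω) n t - bn (z ω) n s) = Q.map (fun ω =>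
      (∑ k ∈ Finset.range ((⌊sc n * t⌋ - ⌊sc n * s⌋).toNat), (z ω (1 + (k : ℕ)) - 2)) / rt n)
    rw [law_sum_range hz, ← law_sum hz ⌊sc n * s⌋]
    congr 1
    funext ω
    exact bn_sub (z ω) n hst.le
  have e2 : gaussLaw s t =
      ⟨(gaussianReal 0 4).map (fun x : ℝ => x * √((t - s) / 2)),
        Measure.isProbabilityMeasure_map
          (clt_scaled hz h1 rt_nonneg h2).aemeasurable_limit⟩ :=
    Subtype.ext elim.symm
  rw [e1, e2]
  exact h3

/-- the increments over disjoint intervals are independent -/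
theorem incr_indep (hz : IsWalk Q z) (n N : ℕ) {t : ℕ → ℝ} (ht : StrictMono t) :
    iIndepFun (fun (i : Fin N) ω => bn (z ω) n (t (i + 1)) - bn (z ω) n (t i)) Q := by
  set a : ℕ → ℤ := fun i => ⌊sc n * t i⌋ with ha
  have hmono : Monotone a := fun i j hij =>
    Int.floor_mono (mul_le_mul_of_nonneg_left (ht.monotone hij) (sc_nonneg n))
  have hinj : Function.Injective (fun p : (i : Fin N) × (Finset.Ioc (a i) (a (i + 1))) =>
      (p.2 : ℤ)) := by
    rintro ⟨i, k, hk⟩ ⟨j, l, hl⟩ h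
    have h' : k = l := h
    subst h'
    rw [Finset.mem_Ioc] at hk hl
    have hij : i = j := by
      rcases lt_trichotomy i j with h1 | h1 | h1
      · exfalso
        have h2 : a (i + 1) ≤ a j := hmono (by exact_mod_cast h1)
        omega
      · exact h1
      · exfalso
        have h2 : a (j + 1) ≤ a i := hmono (by exact_mod_cast h1)
        omega
    subst hij
    rfl
  have h1 : iIndepFun (fun (p : (i : Fin N) × (Finset.Ioc (a i) (a (i + 1)))) ω =>
      z ω (p.2 : ℤ) - 2) Q :=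
    (hz.indep.precomp hinj).comp (fun _ x => x - 2) (fun _ => by fun_prop)
  have h2 := iIndepFun_curry (X := fun (i : Fin N) (k : Finset.Ioc (a i) (a (i + 1))) ω =>
    z ω (k : ℤ) - 2) (fun i k => (hz.meas _).sub_const 2) h1
  have h3 := h2.comp (fun (i : Fin N) (v : Finset.Ioc (a i) (a (i + 1)) → ℝ) =>
    (∑ k, v k) / rt n) (fun i => by fun_prop)
  refine (iIndepFun_congr (fun i => Eventually.of_forall fun ω => ?_)).1 h3
  show (∑ k : Finset.Ioc (a i) (a (i + 1)), (z ω (k : ℤ) - 2)) / rt n =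
    bn (z ω) n (t (i + 1)) - bn (z ω) n (t i)
  rw [Finset.sum_coe_sort (Finset.Ioc (a i) (a (i + 1))) (fun k => z ω k - 2)]
  unfold bn
  rw [← sub_div, wsum_sub _ (hmono (Nat.le_succ i))]

/-- the vector of increments converges in law -/
theorem incr_vec_tendsto (hz : IsWalk Q z) (N : ℕ) {t : ℕ → ℝ} (ht : StrictMono t)
    {G : (Fin N → ℝ) → ℝ} (hG : Continuous G) (hGb : ∃ C, ∀ v, |G v| ≤ C) :
    Tendsto (fun n : ℕ => ∫ ω, G (fun i => bn (z ω) n (t (i + 1)) - bn (z ω) n (t i)) ∂Q) atTop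
      (𝓝 (∫ v, G v ∂(Measure.pi fun i : Fin N =>
        gaussianReal 0 (2 * (t (i + 1) - t i)).toNNReal))) := by
  have hlt : ∀ i : Fin N, t i < t (i + 1) := fun i => ht (Nat.lt_succ_self _)
  have h1 : Tendsto (fun (n : ℕ) (i : Fin N) => incrLaw hz n (t i) (t (i + 1))) atTop
      (𝓝 fun i : Fin N => gaussLaw (t i) (t (i + 1))) :=
    tendsto_pi_nhds.2 fun i => incr_tendsto hz (hlt i)
  have h2 := (ProbabilityMeasure.continuous_pi (α := fun _ : Fin N => ℝ)).continuousAt.tendsto.comp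
    h1
  obtain ⟨C, hC⟩ := hGb
  set Gb : BoundedContinuousFunction (Fin N → ℝ) ℝ :=
    BoundedContinuousFunction.ofNormedAddCommGroup G hG C (fun v => hC v) with hGb
  have h3 := (ProbabilityMeasure.tendsto_iff_forall_integral_tendsto.1 h2) Gb
  refine (tendsto_congr fun n => ?_).1 h3
  have hm : ∀ i : Fin N, Measurable (fun ω => bn (z ω) n (t (i + 1)) - bn (z ω) n (t i)) :=
    fun i => (measurable_bn hz n _).sub (measurable_bn hz n _)
  have h4 : Measure.pi (fun i : Fin N =>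
      Q.map (fun ω => bn (z ω) n (t (i + 1)) - bn (z ω) n (t i))) =
      Q.map (fun ω (i : Fin N) => bn (z ω) n (t (i + 1)) - bn (z ω) n (t i)) :=
    ((incr_indep hz n N ht).map_fun_eq_pi_map (fun i => (hm i).aemeasurable)).symm
  show ∫ v, G v ∂(Measure.pi fun i : Fin N =>
    Q.map (fun ω => bn (z ω) n (t (i + 1)) - bn (z ω) n (t i))) = _
  rw [h4, integral_map (measurable_pi_lambda _ hm).aemeasurable
    hG.measurable.aestronglyMeasurable]

end Pool.Agent.H20.DLW
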