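import Pool.Agent.H20.DLW.Clt2

/-! # Finite-dimensional convergence of the rescaled walk -/

open MeasureTheory ProbabilityTheory Filter Topology Set
open scoped ENNReal

namespace Pool.Agent.H20.DLW

open Pool.Agent.H37.DL

/-- a finite nonempty set of reals is contained in the range of a strictly monotone sequence -/
theorem exists_strictMono (S : Finset ℝ) (hS : S.Nonempty) : ∃ (t : ℕ → ℝ) (N : ℕ),
    StrictMono t ∧ ∀ s ∈ S, ∃ k ≤ N, t k = s := by
  set c := S.card with hc
  have hcpos : 0 < c := Finset.card_pos.2 hS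
  set e := S.orderEmbOfFin hc.symm with he
  set last : ℝ := e ⟨c - 1, by omega⟩ with hlast
  refine ⟨fun k => if h : k < c then e ⟨k, h⟩ else last + 1 + (k - c : ℕ), c, ?_, ?_⟩
  · apply strictMono_nat_of_lt_succ
    intro k
    show (if h : k < c then e ⟨k, h⟩ else last + 1 + (k - c : ℕ)) <
      (if h : k + 1 < c then e ⟨k + 1, h⟩ else last + 1 + (k + 1 - c : ℕ))
    by_cases h1 : k + 1 < c
    · have h2 : k < c := by omega
      rw [dif_pos h1, dif_pos h2]
      exact e.strictMono (by rw [Fin.mk_lt_mk]; omega)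
    · rw [dif_neg h1]
      by_cases h2 : k < c
      · rw [dif_pos h2]
        have h3 : k = c - 1 := by omega
        have h4 : e ⟨k, h2⟩ = last := by
          rw [hlast]; congr 1; exact Fin.ext h3
        rw [h4]
        have : (0 : ℝ) ≤ ((k + 1 - c : ℕ) : ℝ) := by positivity
        linarith
      · rw [dif_neg h2]
        have h3 : ((k + 1 - c : ℕ) : ℝ) = ((k - c : ℕ) : ℝ) + 1 := by
          have : k + 1 - c = (k - c) + 1 := by omega
          rw [this]; push_cast; ring
        rw [h3]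
        linarith
  · intro s hs
    have h1 : s ∈ Set.range e := by
      rw [he, Finset.range_orderEmbOfFin]
      exact hs
    obtain ⟨⟨k, hk⟩, hks⟩ := h1
    refine ⟨k, by omega, ?_⟩
    show (if h : k < c then e ⟨k, h⟩ else last + 1 + (k - c : ℕ)) = s
    rw [dif_pos hk]
    exact hks

/-- telescoping with indicator sums -/
theorem telescope (g : ℕ → ℝ) (N : ℕ) {a : ℕ} (ha : a ≤ N) :
    ∑ i : Fin N, (if (i : ℕ) < a then (1 : ℝ) else 0) * (g (i + 1) - g i) = g a - g 0 := by
  rw [Fin.sum_univ_eq_sum_range (fun i : ℕ => (if i < a then (1 : ℝ) else 0) *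
    (g (i + 1) - g i)) N]
  simp_rw [ite_mul, one_mul, zero_mul]
  rw [← Finset.sum_filter]
  have h1 : (Finset.range N).filter (fun i => i < a) = Finset.range a := by
    ext i
    rw [Finset.mem_filter, Finset.mem_range, Finset.mem_range]
    omega
  rw [h1, Finset.sum_range_sub]

variable {Ω : Type*} [MeasurableSpace Ω] {Q : Measure Ω} [IsProbabilityMeasure Q]
  {z : Ω → ℤ → ℝ} {Ωb : Type*} [MeasurableSpace Ωb] {Pb : Measure Ωb} [IsProbabilityMeasure Pb]
  {b : Ωb → ℝ → ℝ}

theorem bn_zero (w : ℤ → ℝ) (n : ℕ) : bn w n 0 = 0 := by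
  unfold bn
  rw [mul_zero, Int.floor_zero, wsum_zero, zero_div]

/-- finite-dimensional convergence to Brownian motion -/
theorem bn_fdd (hz : IsWalk Q z) (hb : IsBM Pb b) {m : ℕ} (x : Fin m → ℝ)
    {F : (Fin m → ℝ) → ℝ} (hF : Continuous F) (hFb : ∃ C, ∀ v, |F v| ≤ C) :
    Tendsto (fun n : ℕ => ∫ ω, F (fun i => bn (z ω) n (x i)) ∂Q) atTop
      (𝓝 (∫ ω, F (fun i => b ω (x i)) ∂Pb)) := by
  classical
  obtain ⟨t, N, ht, htS⟩ := exists_strictMono (insert 0 (Finset.univ.image x))
    ⟨0, Finset.mem_insert_self _ _⟩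
  obtain ⟨a0, ha0, h0⟩ := htS 0 (Finset.mem_insert_self _ _)
  have hx : ∀ i, ∃ k ≤ N, t k = x i := fun i =>
    htS (x i) (Finset.mem_insert_of_mem (Finset.mem_image_of_mem x (Finset.mem_univ i)))
  choose a ha hax using hx
  set G : (Fin N → ℝ) → ℝ := fun v => F (fun j => ∑ i : Fin N,
    ((if (i : ℕ) < a j then (1 : ℝ) else 0) - (if (i : ℕ) < a0 then (1 : ℝ) else 0)) * v i)
    with hG
  have hGc : Continuous G := by
    rw [hG]
    exact hF.comp (by fun_prop)
  have hGb : ∃ C, ∀ v, |G v| ≤ C := by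
    obtain ⟨C, hC⟩ := hFb
    exact ⟨C, fun v => hC _⟩
  have key : ∀ g : ℝ → ℝ, g 0 = 0 → (fun j => g (x j)) = fun j => ∑ i : Fin N,
      ((if (i : ℕ) < a j then (1 : ℝ) else 0) - (if (i : ℕ) < a0 then (1 : ℝ) else 0)) *
        (g (t (i + 1)) - g (t i)) := by
    intro g hg
    funext j
    simp_rw [sub_mul]
    rw [Finset.sum_sub_distrib, telescope (fun k => g (t k)) N (ha j),
      telescope (fun k => g (t k)) N ha0, hax, h0, hg]
    ring
  have h1 := incr_vec_tendsto hz N ht hGc hGb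
  have e1 : ∀ n : ℕ, ∫ ω, F (fun i => bn (z ω) n (x i)) ∂Q =
      ∫ ω, G (fun i : Fin N => bn (z ω) n (t (i + 1)) - bn (z ω) n (t i)) ∂Q := by
    intro n
    congr 1
    funext ω
    rw [hG]
    exact congrArg F (key (bn (z ω) n) (bn_zero _ _))
  have e2 : ∫ ω, F (fun i => b ω (x i)) ∂Pb = ∫ v, G v ∂(Measure.pi fun i : Fin N =>
      gaussianReal 0 (2 * (t (i + 1) - t i)).toNNReal) := by
    have hm : Measurable (fun ω (i : Fin N) => b ω (t (i + 1)) - b ω (t i)) :=
      measurable_pi_lambda _ fun i => (hb.meas _).sub (hb.meas _)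
    rw [← hb.incr N t ht, integral_map hm.aemeasurable hGc.measurable.aestronglyMeasurable]
    congr 1
    funext ω
    rw [hG]
    exact congrArg F (key (b ω) (hb.zero ω))
  simp_rw [e1]
  rw [e2]
  exact h1

end Pool.Agent.H20.DLW
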