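import Pool.Agent.H20.DLW.Fdd

/-! # Joint convergence of the rescaled passage times and of an independent walk -/

open MeasureTheory ProbabilityTheory Filter Topology Set
open scoped ENNReal

namespace Pool.Agent.H20.DLW

open Pool.Agent.H37.DL

theorem measurable_lpp {Ω : Type*} [MeasurableSpace Ω] {w : Ω → ℤ → ℕ → ℝ}
    (hw : ∀ i j, Measurable fun ω => w ω i j) (a : ℤ) : ∀ j k : ℕ,
    Measurable fun ω => lpp (w ω) a k j := by
  intro j
  induction j with
  | zero =>
    intro k
    induction k with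
    | zero => simp only [lpp]; exact hw _ _
    | succ k ih => simp only [lpp]; exact ih.add (hw _ _)
  | succ j ihj =>
    intro k
    induction k with
    | zero => simp only [lpp]; exact (ihj 0).add (hw _ _)
    | succ k ih => simp only [lpp]; exact (ih.max (ihj (k + 1))).add (hw _ _)

theorem measurable_Sn {Ω : Type*} [MeasurableSpace Ω] {w : Ω → ℤ → ℕ → ℝ}
    (hw : ∀ i j, Measurable fun ω => w ω i j) (n : ℕ) (p : ℝ × ℝ) :
    Measurable fun ω => Sn (w ω) n p := by
  unfold Sn
  exact (((measurable_lpp hw _ _ _).sub_const _).sub_const _).div_const _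

variable {Ω : Type*} [MeasurableSpace Ω] {Q : Measure Ω} [IsProbabilityMeasure Q]
  {z : Ω → ℤ → ℝ} {Ωb : Type*} [MeasurableSpace Ωb] {Pb : Measure Ωb} [IsProbabilityMeasure Pb]
  {b : Ωb → ℝ → ℝ}

/-- the law of a measurable random vector -/
noncomputable def pm {Ω E : Type*} [MeasurableSpace Ω] [MeasurableSpace E] (P : Measure Ω)
    [IsProbabilityMeasure P] (X : Ω → E) (hX : Measurable X) : ProbabilityMeasure E :=
  ⟨P.map X, Measure.isProbabilityMeasure_map hX.aemeasurable⟩

theorem measurable_bnv (hz : IsWalk Q z) (n : ℕ) {m : ℕ} (x : Fin m → ℝ) :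
    Measurable fun ω (i : Fin m) => bn (z ω) n (x i) :=
  measurable_pi_lambda _ fun _ => measurable_bn hz n _

theorem measurable_bv (hb : IsBM Pb b) {m : ℕ} (x : Fin m → ℝ) :
    Measurable fun ω (i : Fin m) => b ω (x i) :=
  measurable_pi_lambda _ fun _ => hb.meas _

theorem bn_pm (hz : IsWalk Q z) (hb : IsBM Pb b) {m : ℕ} (x : Fin m → ℝ) :
    Tendsto (fun n : ℕ => pm Q (fun ω (i : Fin m) => bn (z ω) n (x i)) (measurable_bnv hz n x))
      atTop (𝓝 (pm Pb (fun ω (i : Fin m) => b ω (x i)) (measurable_bv hb x))) := by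
  rw [ProbabilityMeasure.tendsto_iff_forall_integral_tendsto]
  intro f
  have h := bn_fdd hz hb x f.continuous ⟨‖f‖, fun v => f.norm_coe_le_norm v⟩
  refine (tendsto_congr fun n => ?_).1 (h.trans (le_of_eq ?_))
  · exact (integral_map (measurable_bnv hz n x).aemeasurable
      f.continuous.measurable.aestronglyMeasurable).symm
  · congr 1
    exact (integral_map (measurable_bv hb x).aemeasurable
      f.continuous.measurable.aestronglyMeasurable).symm

/-- joint convergence with the rescaled last passage times, the walk being independent -/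
theorem joint_fdd {Ω₁ : Type*} [MeasurableSpace Ω₁] {Q₁ : Measure Ω₁}
    [IsProbabilityMeasure Q₁] {w : ℕ → Ω₁ → ℤ → ℕ → ℝ} (hw : ∀ n, IsExpWeights Q₁ (w n))
    {S : Ω₁ → ℝ × ℝ → ℝ} (hS : ∀ p, Measurable fun ω => S ω p)
    (hlim : ∀ R : ℝ, ∀ ε : ℝ, 0 < ε → Tendsto (fun n : ℕ => Q₁ {ω | ∃ p : ℝ × ℝ, |p.1| ≤ R ∧
      |p.2| ≤ R ∧ ε ≤ |Sn (w n ω) n p - S ω p|}) atTop (𝓝 0))
    (hz : IsWalk Q z) (hb : IsBM Pb b) {m m' : ℕ} (p : Fin m → ℝ × ℝ) (x : Fin m' → ℝ)
    {F : (Fin m → ℝ) × (Fin m' → ℝ) → ℝ} (hF : Continuous F) (hFb : ∃ C, ∀ v, |F v| ≤ C) :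
    Tendsto (fun n : ℕ => ∫ ω, F (fun i => Sn (w n ω.1) n (p i), fun i => bn (z ω.2) n (x i))
      ∂(Q₁.prod Q)) atTop
      (𝓝 (∫ ω, F (fun i => S ω.1 (p i), fun i => b ω.2 (x i)) ∂(Q₁.prod Pb))) := by
  have hmS : ∀ n, Measurable fun ω (i : Fin m) => Sn (w n ω) n (p i) := fun n =>
    measurable_pi_lambda _ fun _ => measurable_Sn (hw n).meas n _
  have hmS' : Measurable fun ω (i : Fin m) => S ω (p i) := measurable_pi_lambda _ fun _ => hS _
  -- convergence in measure of the first component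
  have h1 : TendstoInMeasure Q₁ (fun n ω (i : Fin m) => Sn (w n ω) n (p i)) atTop
      (fun ω (i : Fin m) => S ω (p i)) := by
    rw [tendstoInMeasure_iff_norm]
    intro ε hε
    set R : ℝ := ∑ i, (|(p i).1| + |(p i).2|) with hR
    have hRi : ∀ i, |(p i).1| ≤ R ∧ |(p i).2| ≤ R := by
      intro i
      have h2 : |(p i).1| + |(p i).2| ≤ R :=
        Finset.single_le_sum (f := fun i => |(p i).1| + |(p i).2|)
          (fun j _ => by positivity) (Finset.mem_univ i)
      constructor
      · linarith [abs_nonneg (p i).2]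
      · linarith [abs_nonneg (p i).1]
    refine tendsto_of_tendsto_of_tendsto_of_le_of_le tendsto_const_nhds (hlim R ε hε)
      (fun _ => zero_le) (fun n => measure_mono ?_)
    intro ω hω
    have hω' : ε ≤ ‖(fun i : Fin m => Sn (w n ω) n (p i)) - (fun i : Fin m => S ω (p i))‖ := hω
    by_contra hcon
    have h3 : ∀ i, |Sn (w n ω) n (p i) - S ω (p i)| < ε := by
      intro i
      by_contra h4
      exact hcon ⟨p i, (hRi i).1, (hRi i).2, not_lt.1 h4⟩
    have h5 : ‖(fun i : Fin m => Sn (w n ω) n (p i)) - (fun i : Fin m => S ω (p i))‖ < ε := by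
      rw [pi_norm_lt_iff hε]
      intro i
      rw [Pi.sub_apply, Real.norm_eq_abs]
      exact h3 i
    linarith
  have h2 := h1.tendstoInDistribution_of_aemeasurable (fun n => (hmS n).aemeasurable)
    hmS'.aemeasurable
  have h3 : Tendsto (fun n : ℕ => pm Q₁ (fun ω (i : Fin m) => Sn (w n ω) n (p i)) (hmS n)) atTop
      (𝓝 (pm Q₁ (fun ω (i : Fin m) => S ω (p i)) hmS')) := h2.tendsto
  have h4 := bn_pm hz hb x
  have h5 := (ProbabilityMeasure.continuous_prod
    (α := Fin m → ℝ) (β := Fin m' → ℝ)).continuousAt.tendsto.comp (h3.prodMk_nhds h4)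
  obtain ⟨C, hC⟩ := hFb
  have h6 := (ProbabilityMeasure.tendsto_iff_forall_integral_tendsto.1 h5)
    (BoundedContinuousFunction.ofNormedAddCommGroup F hF C (fun v => hC v))
  refine (tendsto_congr fun n => ?_).1 (h6.trans (le_of_eq ?_))
  · show ∫ v, F v ∂((Q₁.map (fun ω (i : Fin m) => Sn (w n ω) n (p i))).prod
      (Q.map (fun ω (i : Fin m') => bn (z ω) n (x i)))) = _
    rw [Measure.map_prod_map _ _ (hmS n) (measurable_bnv hz n x),
      integral_map ((hmS n).prodMap (measurable_bnv hz n x)).aemeasurable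
        hF.measurable.aestronglyMeasurable]
    rfl
  · congr 1
    show ∫ v, F v ∂((Q₁.map (fun ω (i : Fin m) => S ω (p i))).prod
      (Pb.map (fun ω (i : Fin m') => b ω (x i)))) = _
    rw [Measure.map_prod_map _ _ hmS' (measurable_bv hb x),
      integral_map (hmS'.prodMap (measurable_bv hb x)).aemeasurable
        hF.measurable.aestronglyMeasurable]
    rfl

end Pool.Agent.H20.DLW
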