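import Pool.Agent.H20.DLW.Basic

/-! # Moments of the exponential law of mean 2 -/

open MeasureTheory ProbabilityTheory Filter Topology Set
open scoped ENNReal

namespace Pool.Agent.H20.DLW

theorem pdf_eq (x : ℝ) : (gammaPDF 1 (1 / 2) x).toReal =
    (Ici (0 : ℝ)).indicator (fun x => 1 / 2 * Real.exp (-(1 / 2 * x))) x := by
  by_cases hx : 0 ≤ x
  · rw [Set.indicator_of_mem (show x ∈ Ici (0 : ℝ) from hx), gammaPDF_of_nonneg hx,
      ENNReal.toReal_ofReal]
    · simp
    · simp only [Real.rpow_one, Real.Gamma_one, div_one, sub_self, Real.rpow_zero, mul_one]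
      positivity
  · rw [Set.indicator_of_notMem (show x ∉ Ici (0 : ℝ) from hx), gammaPDF_of_neg (not_le.1 hx)]
    simp

theorem meas_pdf : Measurable (gammaPDF 1 (1 / 2)) :=
  (measurable_gammaPDFReal 1 (1 / 2)).ennreal_ofReal

theorem int_expMeasure (f : ℝ → ℝ) : ∫ x, f x ∂(expMeasure (1 / 2)) =
    ∫ x in Ioi (0 : ℝ), (1 / 2 * Real.exp (-(1 / 2 * x))) * f x := by
  unfold expMeasure gammaMeasure
  rw [integral_withDensity_eq_integral_toReal_smul meas_pdf
    (Eventually.of_forall fun x => by unfold gammaPDF; exact ENNReal.ofReal_lt_top)]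
  rw [← integral_Ici_eq_integral_Ioi, ← integral_indicator measurableSet_Ici]
  congr 1
  funext x
  rw [pdf_eq, smul_eq_mul]
  by_cases hx : x ∈ Ici (0 : ℝ)
  · rw [Set.indicator_of_mem hx, Set.indicator_of_mem hx]
  · rw [Set.indicator_of_notMem hx, Set.indicator_of_notMem hx, zero_mul]

theorem integrable_expMeasure (f : ℝ → ℝ)
    (hf : IntegrableOn (fun x => (1 / 2 * Real.exp (-(1 / 2 * x))) * f x) (Ioi 0)) :
    Integrable f (expMeasure (1 / 2)) := by
  unfold expMeasure gammaMeasure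
  rw [integrable_withDensity_iff_integrable_smul' meas_pdf
    (Eventually.of_forall fun x => by unfold gammaPDF; exact ENNReal.ofReal_lt_top)]
  have h1 : (fun x => (gammaPDF 1 (1 / 2) x).toReal • f x) =
      (Ici (0 : ℝ)).indicator (fun x => (1 / 2 * Real.exp (-(1 / 2 * x))) * f x) := by
    funext x
    rw [pdf_eq, smul_eq_mul]
    by_cases hx : x ∈ Ici (0 : ℝ)
    · rw [Set.indicator_of_mem hx, Set.indicator_of_mem hx]
    · rw [Set.indicator_of_notMem hx, Set.indicator_of_notMem hx, zero_mul]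
  rw [h1, integrable_indicator_iff measurableSet_Ici]
  exact (integrableOn_Ici_iff_integrableOn_Ioi).2 hf

theorem moment (k : ℕ) : Integrable (fun x : ℝ => x ^ k) (expMeasure (1 / 2)) ∧
    ∫ x, x ^ k ∂(expMeasure (1 / 2)) = 2 ^ k * k.factorial := by
  have h := Real.integral_rpow_mul_exp_neg_mul_Ioi (a := (k : ℝ) + 1) (r := 1 / 2)
    (by positivity) (by norm_num)
  have h2 : ∫ x in Ioi (0 : ℝ), (1 / 2 * Real.exp (-(1 / 2 * x))) * x ^ k =
      2 ^ k * k.factorial := by
    have e : ∀ x : ℝ, (1 / 2 * Real.exp (-(1 / 2 * x))) * x ^ k =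
        1 / 2 * (x ^ ((k : ℝ) + 1 - 1) * Real.exp (-(1 / 2 * x))) := by
      intro x
      rw [add_sub_cancel_right, Real.rpow_natCast]; ring
    simp_rw [e]
    rw [integral_const_mul, h, Real.Gamma_nat_eq_factorial]
    have e2 : (1 / (1 / 2) : ℝ) ^ ((k : ℝ) + 1) = 2 ^ (k + 1) := by
      rw [show (1 / (1 / 2) : ℝ) = 2 by norm_num]
      rw [show ((k : ℝ) + 1) = ((k + 1 : ℕ) : ℝ) by push_cast; ring, Real.rpow_natCast]
    rw [e2, pow_succ]
    ring
  constructor
  · apply integrable_expMeasure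
    by_contra hn
    have h3 := integral_undef hn
    rw [h2] at h3
    have : (0 : ℝ) < 2 ^ k * k.factorial := by positivity
    linarith
  · rw [int_expMeasure, h2]

theorem mgf_exp {a : ℝ} (ha : a < 1 / 2) :
    Integrable (fun x : ℝ => Real.exp (a * x)) (expMeasure (1 / 2)) ∧
    ∫ x, Real.exp (a * x) ∂(expMeasure (1 / 2)) = 1 / (1 - 2 * a) := by
  have e : ∀ x : ℝ, (1 / 2 * Real.exp (-(1 / 2 * x))) * Real.exp (a * x) =
      1 / 2 * Real.exp ((a - 1 / 2) * x) := by
    intro x
    rw [mul_assoc, ← Real.exp_add]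
    congr 2
    ring
  constructor
  · apply integrable_expMeasure
    simp_rw [e]
    exact (integrableOn_exp_mul_Ioi (by linarith) 0).const_mul _
  · rw [int_expMeasure]
    simp_rw [e]
    rw [integral_const_mul, integral_exp_mul_Ioi (by linarith)]
    simp only [mul_zero, Real.exp_zero]
    have h2 : 1 - 2 * a ≠ 0 := by
      intro h; linarith
    have h3 : a - 1 / 2 = -((1 - 2 * a) / 2) := by ring
    rw [h3, div_neg, neg_div, neg_neg]
    field_simp

instance : IsProbabilityMeasure (expMeasure (1 / 2)) :=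
  isProbabilityMeasure_expMeasure (by norm_num)

theorem int_const (c : ℝ) : ∫ _, c ∂(expMeasure (1 / 2)) = c := by
  rw [integral_const, probReal_univ, one_smul]

/-- mean and second moment of the centred variable -/
theorem centred : Integrable (fun x : ℝ => x - 2) (expMeasure (1 / 2)) ∧
    ∫ x, (x - 2) ∂(expMeasure (1 / 2)) = 0 ∧
    Integrable (fun x : ℝ => (x - 2) ^ 2) (expMeasure (1 / 2)) ∧
    ∫ x, (x - 2) ^ 2 ∂(expMeasure (1 / 2)) = 4 := by
  obtain ⟨i1, m1⟩ := moment 1
  obtain ⟨i2, m2⟩ := moment 2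
  simp only [pow_one, Nat.factorial_one, Nat.cast_one, mul_one] at i1 m1
  have m2' : ∫ x, x ^ 2 ∂(expMeasure (1 / 2)) = 8 := by
    rw [m2, Nat.factorial_two]; norm_num
  have j1 : Integrable (fun x : ℝ => x - 2) (expMeasure (1 / 2)) := i1.sub (integrable_const 2)
  have m3 : ∫ x, (x - 2) ∂(expMeasure (1 / 2)) = 0 := by
    rw [integral_sub i1 (integrable_const 2), int_const, m1]; norm_num
  have e : ∀ x : ℝ, (x - 2) ^ 2 = x ^ 2 - 4 * (x - 2) - 4 := fun x => by ring
  have j4 : Integrable (fun x : ℝ => 4 * (x - 2)) (expMeasure (1 / 2)) := j1.const_mul 4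
  have j5 : Integrable (fun x : ℝ => x ^ 2 - 4 * (x - 2)) (expMeasure (1 / 2)) := i2.sub j4
  refine ⟨j1, m3, ?_, ?_⟩
  · simp_rw [e]
    exact j5.sub (integrable_const 4)
  · simp_rw [e]
    rw [integral_sub j5 (integrable_const 4), integral_sub i2 j4, integral_const_mul, m3,
      int_const, m2']
    norm_num

end Pool.Agent.H20.DLW
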