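import Pool.Agent.H20.DLW.Max

/-! # Exponential maximal inequality and oscillation of the rescaled walk -/

open MeasureTheory ProbabilityTheory Filter Topology Set
open scoped ENNReal

namespace Pool.Agent.H20.DLW

open Pool.Agent.H37.DL

theorem rt_sq (n : ℕ) : rt n ^ 2 = 2 * sc n := by
  have h0 : (0 : ℝ) ≤ (n : ℝ) := by positivity
  have e1 : ((2 : ℝ) ^ (4 / 3 : ℝ)) ^ 2 = 2 * 2 ^ (5 / 3 : ℝ) := by
    rw [← Real.rpow_natCast, ← Real.rpow_mul (by norm_num)]
    have : (2 : ℝ) * 2 ^ (5 / 3 : ℝ) = 2 ^ (1 : ℝ) * 2 ^ (5 / 3 : ℝ) := by rw [Real.rpow_one]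
    rw [this, ← Real.rpow_add (by norm_num)]
    norm_num
  have e2 : ((n : ℝ) ^ (1 / 3 : ℝ)) ^ 2 = (n : ℝ) ^ (2 / 3 : ℝ) := by
    rw [← Real.rpow_natCast, ← Real.rpow_mul h0]
    norm_num
  unfold rt sc
  rw [mul_pow, e1, e2]
  ring

theorem sc_tendsto : Tendsto (fun n : ℕ => sc n) atTop atTop := by
  unfold sc
  apply Tendsto.const_mul_atTop (by positivity)
  exact (tendsto_rpow_atTop (by norm_num)).comp tendsto_natCast_atTop_atTop

theorem rt_tendsto : Tendsto (fun n : ℕ => rt n) atTop atTop := by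
  unfold rt
  apply Tendsto.const_mul_atTop (by positivity)
  exact (tendsto_rpow_atTop (by norm_num)).comp tendsto_natCast_atTop_atTop

theorem sc_nonneg (n : ℕ) : 0 ≤ sc n := by unfold sc; positivity

theorem rt_nonneg (n : ℕ) : 0 ≤ rt n := by unfold rt; positivity

theorem exp_bound {x : ℝ} (hx : x ≤ 1 / 2) : Real.exp (-x) * (1 / (1 - x)) ≤ Real.exp (x ^ 2) := by
  have h1 : 0 < 1 - x := by linarith
  rw [mul_one_div, div_le_iff₀ h1]
  have h2 : 1 ≤ Real.exp (x + x ^ 2) * (1 - x) := by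
    rcases le_total x 0 with h | h
    · have h3 : x + x ^ 2 + 1 ≤ Real.exp (x + x ^ 2) := Real.add_one_le_exp _
      have h4 : 1 ≤ (x + x ^ 2 + 1) * (1 - x) := by
        have e : (x + x ^ 2 + 1) * (1 - x) = 1 - x ^ 3 := by ring
        have h5 : x ^ 3 ≤ 0 := by
          have : x ^ 3 = x * x ^ 2 := by ring
          rw [this]
          exact mul_nonpos_of_nonpos_of_nonneg h (sq_nonneg x)
        rw [e]; linarith
      exact h4.trans (mul_le_mul_of_nonneg_right h3 h1.le)
    · have h3 : 1 + (x + x ^ 2) + (x + x ^ 2) ^ 2 / 2 ≤ Real.exp (x + x ^ 2) :=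
        Real.quadratic_le_exp_of_nonneg (by positivity)
      have h4 : 1 ≤ (1 + (x + x ^ 2) + (x + x ^ 2) ^ 2 / 2) * (1 - x) := by
        have e : (1 + (x + x ^ 2) + (x + x ^ 2) ^ 2 / 2) * (1 - x) =
            1 + x ^ 2 * ((1 - x) * (1 + x) ^ 2 / 2 - x) := by ring
        have h5 : 0 ≤ (1 - x) * (1 + x) ^ 2 / 2 - x := by
          have e3 : (1 - x) * (1 + x) ^ 2 / 2 - x =
            (1 / 2 - x) * (1 + x / 2 + x ^ 2 / 2) + x / 4 * (1 - x) := by ring
          rw [e3]
          have := mul_nonneg (show (0 : ℝ) ≤ 1 / 2 - x by linarith)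
            (show (0 : ℝ) ≤ 1 + x / 2 + x ^ 2 / 2 by positivity)
          have := mul_nonneg (show (0 : ℝ) ≤ x / 4 by linarith) h1.le
          linarith
        rw [e]
        have := mul_nonneg (sq_nonneg x) h5
        linarith
      exact h4.trans (mul_le_mul_of_nonneg_right h3 h1.le)
  calc Real.exp (-x) = Real.exp (-x) * 1 := by ring
    _ ≤ Real.exp (-x) * (Real.exp (x + x ^ 2) * (1 - x)) :=
        mul_le_mul_of_nonneg_left h2 (Real.exp_pos _).le
    _ = Real.exp (x ^ 2) * (1 - x) := by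
        rw [← mul_assoc, ← Real.exp_add]
        congr 2
        ring

theorem exp_step {c : ℝ} (hc : c ≤ 1 / 4) (s r : ℝ) :
    ∫⁻ x, ENNReal.ofReal (Real.exp (c * (s + x) + r)) ∂nu ≤
      ENNReal.ofReal (Real.exp (c * s + (r + 4 * c ^ 2))) := by
  obtain ⟨i1, m1⟩ := mgf_exp (a := c) (by linarith)
  have e : ∀ x : ℝ, Real.exp (c * (s + (x - 2)) + r) =
      Real.exp (c * s + r) * Real.exp (-(2 * c)) * Real.exp (c * x) := by
    intro x
    rw [← Real.exp_add, ← Real.exp_add]
    congr 1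
    ring
  rw [lintegral_nu (f := fun x => Real.exp (c * (s + x) + r)) (by fun_prop)
    (fun x => (Real.exp_pos _).le)]
  · apply ENNReal.ofReal_le_ofReal
    simp_rw [e]
    rw [integral_const_mul, m1]
    have h := exp_bound (x := 2 * c) (by linarith)
    calc Real.exp (c * s + r) * Real.exp (-(2 * c)) * (1 / (1 - 2 * c))
        = Real.exp (c * s + r) * (Real.exp (-(2 * c)) * (1 / (1 - 2 * c))) := by ring
      _ ≤ Real.exp (c * s + r) * Real.exp ((2 * c) ^ 2) :=
          mul_le_mul_of_nonneg_left h (Real.exp_pos _).le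
      _ = _ := by
          rw [← Real.exp_add]
          congr 1
          ring
  · simp_rw [e]
    exact i1.const_mul _

variable {Ω : Type*} [MeasurableSpace Ω] {Q : Measure Ω} [IsProbabilityMeasure Q]
  {z : Ω → ℤ → ℝ}

theorem block_exp (hz : IsWalk Q z) {c l : ℝ} (hc0 : 0 < c) (hc : c ≤ 1 / 4) (a : ℤ) (m : ℕ) :
    Q {ω | ∃ j : ℕ, j ≤ m ∧ l ≤ |∑ i ∈ Finset.Ioc a (a + j), (z ω i - 2)|} ≤
      2 * ENNReal.ofReal (Real.exp (-(c * l) + 4 * c ^ 2 * m)) := by
  have h1 := block_le hz (A := {x : ℝ | l ≤ x}) (measurableSet_le measurable_const measurable_id)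
    (fun m s => ENNReal.ofReal (Real.exp (c * s + (-(c * l) + 4 * c ^ 2 * m)))) ?_ ?_ a m
  · have h2 := block_le hz (A := {x : ℝ | x ≤ -l})
      (measurableSet_le measurable_id measurable_const)
      (fun m s => ENNReal.ofReal (Real.exp (-c * s + (-(c * l) + 4 * c ^ 2 * m)))) ?_ ?_ a m
    · simp only [mul_zero, zero_add] at h1 h2
      rw [two_mul]
      refine le_trans (measure_mono ?_) ((measure_union_le _ _).trans (add_le_add h1 h2))
      rintro ω ⟨j, hj, h⟩
      rcases le_abs.1 h with h3 | h3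
      · exact Or.inl ⟨j, hj, h3⟩
      · right
        refine ⟨j, hj, ?_⟩
        show ∑ i ∈ Finset.Ioc a (a + j), (z ω i - 2) ≤ -l
        linarith
    · intro m s hs
      have hs' : s ≤ -l := hs
      rw [ENNReal.one_le_ofReal, Real.one_le_exp_iff]
      have : 0 ≤ 4 * c ^ 2 * (m : ℝ) := by positivity
      nlinarith
    · intro m s
      refine (exp_step (c := -c) (by linarith) s _).trans (le_of_eq ?_)
      congr 2
      push_cast
      ring
  · intro m s hs
    have hs' : l ≤ s := hs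
    rw [ENNReal.one_le_ofReal, Real.one_le_exp_iff]
    have : 0 ≤ 4 * c ^ 2 * (m : ℝ) := by positivity
    nlinarith
  · intro m s
    refine (exp_step hc s _).trans (le_of_eq ?_)
    congr 2
    push_cast
    ring

end Pool.Agent.H20.DLW
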