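import Pool.Agent.H20.DLW.Osc

/-! # Oscillation of the rescaled walk -/

open MeasureTheory ProbabilityTheory Filter Topology Set
open scoped ENNReal

namespace Pool.Agent.H20.DLW

open Pool.Agent.H37.DL

/-- the deterministic part: small block sums give small oscillation -/
theorem osc_det (w : ℤ → ℝ) {m : ℕ} (hm : 0 < m) {A : ℤ} {l : ℝ} (hl : 0 < l)
    (h : ∀ a : ℤ, -A ≤ a → a ≤ A → ∀ j : ℕ, j ≤ m →
      |∑ i ∈ Finset.Ioc (a * m) (a * m + j), w i| < l)
    {k k' : ℤ} (hk : -A ≤ k / m) (hk' : k / m ≤ A) (hl1 : -A ≤ k' / m) (hl2 : k' / m ≤ A)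
    (hkk : |k - k'| ≤ m) : |wsum w k - wsum w k'| < 3 * l := by
  have hm' : (0 : ℤ) < m := by exact_mod_cast hm
  -- distance to the block start
  have key : ∀ q : ℤ, -A ≤ q / m → q / m ≤ A → |wsum w q - wsum w (q / m * m)| < l := by
    intro q h1 h2
    have h3 : q / m * m ≤ q := Int.ediv_mul_le q hm'.ne'
    have h4 : q < q / m * m + m := by
      have := Int.lt_ediv_add_one_mul_self q hm'
      rw [add_mul, one_mul] at this
      exact this
    rw [wsum_sub w h3]
    have h5 := h (q / m) h1 h2 (q - q / m * m).toNat (by omega)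
    rwa [Int.toNat_of_nonneg (by omega), add_sub_cancel] at h5
  -- distance between neighbouring block starts
  have key2 : ∀ a b : ℤ, -A ≤ a → a ≤ A → -A ≤ b → b ≤ A → a ≤ b → b ≤ a + 1 →
      |wsum w (a * m) - wsum w (b * m)| < l := by
    intro a b h1 h2 h1' h2' h3 h4
    rcases eq_or_lt_of_le h3 with h5 | h5
    · rw [h5, sub_self, abs_zero]; exact hl
    · have h6 : b = a + 1 := by omega
      rw [abs_sub_comm, wsum_sub w (mul_le_mul_of_nonneg_right h3 hm'.le)]
      have h7 := h a h1 h2 m le_rfl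
      have e : b * (m : ℤ) = a * m + m := by rw [h6]; ring
      rwa [e]
  have h1 := key k hk hk'
  have h2 := key k' hl1 hl2
  have h3 : |wsum w (k / m * m) - wsum w (k' / m * m)| < l := by
    rw [abs_le] at hkk
    rcases le_total (k / (m : ℤ)) (k' / m) with h4 | h4
    · apply key2 _ _ hk hk' hl1 hl2 h4
      have h5 : k' ≤ k + m := by omega
      calc k' / (m : ℤ) ≤ (k + m) / m := Int.ediv_le_ediv hm' h5
        _ = k / m + 1 := by
          rw [Int.add_ediv_of_dvd_right (dvd_refl (m : ℤ)), Int.ediv_self hm'.ne']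
    · rw [abs_sub_comm]
      apply key2 _ _ hl1 hl2 hk hk' h4
      have h5 : k ≤ k' + m := by omega
      calc k / (m : ℤ) ≤ (k' + m) / m := Int.ediv_le_ediv hm' h5
        _ = k' / m + 1 := by
          rw [Int.add_ediv_of_dvd_right (dvd_refl (m : ℤ)), Int.ediv_self hm'.ne']
  rw [abs_lt] at *
  constructor <;> linarith [h1.1, h1.2, h2.1, h2.2, h3.1, h3.2]

variable {Ω : Type*} [MeasurableSpace Ω] {Q : Measure Ω} [IsProbabilityMeasure Q]
  {z : Ω → ℤ → ℝ}

/-- the union of the bad events over the blocks -/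
theorem osc_union (hz : IsWalk Q z) {c l : ℝ} (hc0 : 0 < c) (hc : c ≤ 1 / 4) (A : ℕ) (m : ℕ) :
    Q {ω | ∃ a : ℤ, -(A : ℤ) ≤ a ∧ a ≤ A ∧ ∃ j : ℕ, j ≤ m ∧
      l ≤ |∑ i ∈ Finset.Ioc (a * m) (a * m + j), (z ω i - 2)|} ≤
      ENNReal.ofReal ((2 * A + 1) * (2 * Real.exp (-(c * l) + 4 * c ^ 2 * m))) := by
  have e : {ω | ∃ a : ℤ, -(A : ℤ) ≤ a ∧ a ≤ A ∧ ∃ j : ℕ, j ≤ m ∧
      l ≤ |∑ i ∈ Finset.Ioc (a * m) (a * m + j), (z ω i - 2)|} =
      ⋃ a ∈ Finset.Icc (-(A : ℤ)) A, {ω | ∃ j : ℕ, j ≤ m ∧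
      l ≤ |∑ i ∈ Finset.Ioc (a * m) (a * m + j), (z ω i - 2)|} := by
    ext ω
    simp only [Set.mem_ofPred_eq, Set.mem_iUnion, Finset.mem_Icc, exists_prop, and_assoc]
  rw [e]
  refine (measure_biUnion_finset_le _ _).trans ?_
  refine (Finset.sum_le_sum fun a _ => block_exp hz hc0 hc (a * m) m).trans ?_
  rw [Finset.sum_const, Int.card_Icc, nsmul_eq_mul]
  rw [ENNReal.ofReal_mul (by positivity), ENNReal.ofReal_mul (p := 2) (by norm_num)]
  have h1 : (((A : ℤ) + 1 - -(A : ℤ)).toNat : ℝ≥0∞) = ENNReal.ofReal (2 * (A : ℝ) + 1) := by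
    have : ((A : ℤ) + 1 - -(A : ℤ)).toNat = 2 * A + 1 := by omega
    rw [this, ← ENNReal.ofReal_natCast]
    push_cast
    rfl
  rw [h1]
  simp

/-- oscillation of the rescaled walk -/
theorem bn_osc (hz : IsWalk Q z) (K : ℝ) {ε δ : ℝ} (hε : 0 < ε) (hδ : 0 < δ) :
    ∃ η : ℝ, 0 < η ∧ ∀ᶠ n : ℕ in atTop,
      Q {ω | ∃ x y : ℝ, |x| ≤ K ∧ |y| ≤ K ∧ |x - y| ≤ η ∧ ε ≤ |bn (z ω) n x - bn (z ω) n y|} ≤
        ENNReal.ofReal δ := by
  set κ : ℝ := |K| + 1 with hκ
  have hκ1 : 1 ≤ κ := by rw [hκ]; linarith [abs_nonneg K]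
  set C : ℝ := 82944 * (2 * κ + 9) / ε ^ 4 with hC
  have hCpos : 0 < C := by rw [hC]; positivity
  set η : ℝ := min 1 (δ / C) with hη
  have hηpos : 0 < η := by rw [hη]; exact lt_min one_pos (div_pos hδ hCpos)
  have hη1 : η ≤ 1 := min_le_left _ _
  have hη2 : C * η ≤ δ := by
    have : η ≤ δ / C := min_le_right _ _
    rw [le_div_iff₀ hCpos] at this
    linarith
  refine ⟨η, hηpos, ?_⟩
  set θ : ℝ := ε / (24 * η) with hθ
  have hθpos : 0 < θ := by rw [hθ]; positivity
  have hev1 := sc_tendsto.eventually_ge_atTop (2 / η)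
  have hev2 := rt_tendsto.eventually_ge_atTop (4 * θ)
  have hev3 := rt_tendsto.eventually_gt_atTop 0
  have hev4 := sc_tendsto.eventually_gt_atTop 0
  filter_upwards [hev1, hev2, hev3, hev4] with n hn1 hn2 hn3 hn4
  have hsη : 2 ≤ η * sc n := by
    rw [div_le_iff₀ hηpos] at hn1
    linarith
  set m : ℕ := ⌈η * sc n⌉₊ with hm
  -- use blocks of length `M = m + 1`
  set M : ℕ := m + 1 with hM
  have hm1 : η * sc n ≤ m := Nat.le_ceil _
  have hm2 : (m : ℝ) < η * sc n + 1 := Nat.ceil_lt_add_one (by linarith)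
  have hM1 : η * sc n + 1 ≤ M := by rw [hM]; push_cast; linarith
  have hM2 : (M : ℝ) ≤ 2 * (η * sc n) := by rw [hM]; push_cast; linarith
  have hMpos : 0 < M := by omega
  have hMpos' : (0 : ℝ) < M := by exact_mod_cast hMpos
  set A : ℕ := ⌈κ / η⌉₊ + 2 with hA
  have hA1 : κ / η + 2 ≤ A := by
    rw [hA]; push_cast; linarith [Nat.le_ceil (κ / η)]
  have hA2 : (A : ℝ) ≤ κ / η + 3 := by
    rw [hA]; push_cast
    linarith [Nat.ceil_lt_add_one (show (0 : ℝ) ≤ κ / η by positivity)]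
  set c : ℝ := θ / rt n with hc
  have hcpos : 0 < c := by rw [hc]; positivity
  have hc4 : c ≤ 1 / 4 := by
    rw [hc, div_le_iff₀ hn3]; linarith
  set l : ℝ := ε * rt n / 3 with hl
  have hlpos : 0 < l := by rw [hl]; positivity
  have hrs := rt_sq n
  refine (measure_mono ?_).trans ((osc_union hz (c := c) (l := l) hcpos hc4 A M).trans ?_)
  · rintro ω ⟨x, y, hx, hy, hxy, hbad⟩
    by_contra hcon
    apply absurd hbad
    rw [not_le]
    have hcon' : ∀ a : ℤ, -(A : ℤ) ≤ a → a ≤ A → ∀ j : ℕ, j ≤ M →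
        |∑ i ∈ Finset.Ioc (a * M) (a * M + j), (z ω i - 2)| < l := by
      intro a h1 h2 j hj
      by_contra h3
      exact hcon ⟨a, h1, h2, j, hj, not_lt.1 h3⟩
    have hrange : ∀ x : ℝ, |x| ≤ K → -(A : ℤ) ≤ ⌊sc n * x⌋ / (M : ℤ) ∧
        ⌊sc n * x⌋ / (M : ℤ) ≤ A := by
      intro x hx
      have hxκ : |x| ≤ κ := hx.trans ((le_abs_self K).trans (by rw [hκ]; linarith))
      rw [abs_le] at hxκ
      have hMZ : (0 : ℤ) < M := by exact_mod_cast hMpos
      have h1 : sc n * x ≤ κ / η * M := by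
        have h3 : κ / η * (η * sc n) ≤ κ / η * M :=
          mul_le_mul_of_nonneg_left (by linarith) (by positivity)
        have h4 : κ / η * (η * sc n) = κ * sc n := by field_simp
        nlinarith [hxκ.2]
      have h2 : -(κ / η * M) ≤ sc n * x := by
        have h3 : κ / η * (η * sc n) ≤ κ / η * M :=
          mul_le_mul_of_nonneg_left (by linarith) (by positivity)
        have h4 : κ / η * (η * sc n) = κ * sc n := by field_simp
        nlinarith [hxκ.1]
      constructor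
      · rw [Int.le_ediv_iff_mul_le hMZ, Int.le_floor]
        push_cast
        have : κ / η * M ≤ A * M := mul_le_mul_of_nonneg_right (by linarith) hMpos'.le
        linarith
      · apply Int.ediv_le_of_le_mul hMZ
        have h3 : (⌊sc n * x⌋ : ℝ) ≤ (A : ℝ) * M := by
          have : κ / η * M ≤ A * M := mul_le_mul_of_nonneg_right (by linarith) hMpos'.le
          linarith [Int.floor_le (sc n * x)]
        exact_mod_cast h3
    have hdist : |⌊sc n * x⌋ - ⌊sc n * y⌋| ≤ (M : ℤ) := by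
      have h1 : |sc n * x - sc n * y| ≤ η * sc n := by
        rw [← mul_sub, abs_mul, abs_of_nonneg (sc_nonneg n), mul_comm]
        exact mul_le_mul_of_nonneg_right hxy (sc_nonneg n)
      have h2 : |((⌊sc n * x⌋ - ⌊sc n * y⌋ : ℤ) : ℝ)| ≤ ((M : ℤ) : ℝ) := by
        push_cast
        rw [abs_le] at h1 ⊢
        have a1 := Int.floor_le (sc n * x)
        have a2 := Int.lt_floor_add_one (sc n * x)
        have a3 := Int.floor_le (sc n * y)
        have a4 := Int.lt_floor_add_one (sc n * y)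
        constructor <;> linarith
      rw [← Int.cast_abs] at h2
      exact_mod_cast h2
    have h5 := osc_det (fun i => z ω i - 2) hMpos hlpos hcon' (hrange x hx).1 (hrange x hx).2
      (hrange y hy).1 (hrange y hy).2 hdist
    unfold bn
    rw [← sub_div, abs_div, abs_of_pos hn3, div_lt_iff₀ hn3]
    have h6 : 3 * l = ε * rt n := by rw [hl]; ring
    linarith
  · apply ENNReal.ofReal_le_ofReal
    set u : ℝ := ε ^ 2 / (144 * η) with hu
    have hupos : 0 < u := by rw [hu]; positivity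
    have hexp : -(c * l) + 4 * c ^ 2 * M ≤ -u := by
      have h1 : c * l = θ * ε / 3 := by
        rw [hc, hl]; field_simp
      have h2 : 4 * c ^ 2 * M ≤ 4 * θ ^ 2 * η := by
        have h3 : c ^ 2 = θ ^ 2 / (2 * sc n) := by rw [hc, div_pow, hrs]
        rw [h3]
        have h4 : 4 * (θ ^ 2 / (2 * sc n)) * M ≤ 4 * (θ ^ 2 / (2 * sc n)) * (2 * (η * sc n)) :=
          mul_le_mul_of_nonneg_left hM2 (by positivity)
        refine h4.trans (le_of_eq ?_)
        field_simp
      have h5 : -(θ * ε / 3) + 4 * θ ^ 2 * η = -u := by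
        rw [hθ, hu]; field_simp; ring
      linarith
    have hexp2 : Real.exp (-u) ≤ 2 / u ^ 2 := by
      rw [Real.exp_neg, inv_eq_one_div, div_le_div_iff₀ (Real.exp_pos _) (by positivity)]
      have := Real.quadratic_le_exp_of_nonneg hupos.le
      nlinarith
    have hcount : (2 * (A : ℝ) + 1) ≤ (2 * κ + 9) / η := by
      rw [le_div_iff₀ hηpos]
      have h1 : κ / η * η = κ := by field_simp
      have h2 : (A : ℝ) * η ≤ (κ / η + 3) * η := mul_le_mul_of_nonneg_right hA2 hηpos.le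
      nlinarith
    calc (2 * (A : ℝ) + 1) * (2 * Real.exp (-(c * l) + 4 * c ^ 2 * M))
        ≤ (2 * κ + 9) / η * (2 * (2 / u ^ 2)) := by
          apply mul_le_mul hcount _ (by positivity) (by positivity)
          have := Real.exp_le_exp.2 hexp
          linarith
      _ = C * η := by
          rw [hC, hu]; field_simp; ring
      _ ≤ δ := hη2

end Pool.Agent.H20.DLW
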